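import Pool.Agent.H207.RU.Main

/-!
# Quadratic extensions and places; integers of CM fields
-/

set_option autoImplicit false

namespace Pool.Agent.H207.RU

open Finset Pool.Agent.H207.WH

section place

variable {L : Type*} [Field L] {p : ℕ}

/-- the ring `(F ∩ B)[s]` -/
def FS (F : Subfield L) (B : ValuationSubring L) (s : L) (hs : s ^ 2 = (p : L) + 1) :
    Subring L where
  carrier := {x | ∃ a b : L, a ∈ F ∧ a ∈ B ∧ b ∈ F ∧ b ∈ B ∧ x = a + b * s}
  mul_mem' := by
    rintro _ _ ⟨a, b, ha, ha', hb, hb', rfl⟩ ⟨c, d, hc, hc', hd, hd', rfl⟩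
    refine ⟨a * c + b * d * (p + 1), a * d + b * c, ?_, ?_, ?_, ?_, ?_⟩
    · exact F.add_mem (F.mul_mem ha hc) (F.mul_mem (F.mul_mem hb hd)
        (F.add_mem (natCast_mem F p) F.one_mem))
    · exact B.add_mem _ _ (B.mul_mem _ _ ha' hc') (B.mul_mem _ _ (B.mul_mem _ _ hb' hd')
        (B.add_mem _ _ (natCast_mem B p) B.one_mem))
    · exact F.add_mem (F.mul_mem ha hd) (F.mul_mem hb hc)
    · exact B.add_mem _ _ (B.mul_mem _ _ ha' hd') (B.mul_mem _ _ hb' hc')
    · linear_combination (b * d) * hs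
  one_mem' := ⟨1, 0, F.one_mem, B.one_mem, F.zero_mem, B.zero_mem, by ring⟩
  add_mem' := by
    rintro _ _ ⟨a, b, ha, ha', hb, hb', rfl⟩ ⟨c, d, hc, hc', hd, hd', rfl⟩
    exact ⟨a + c, b + d, F.add_mem ha hc, B.add_mem _ _ ha' hc', F.add_mem hb hd,
      B.add_mem _ _ hb' hd', by ring⟩
  zero_mem' := ⟨0, 0, F.zero_mem, B.zero_mem, F.zero_mem, B.zero_mem, by ring⟩
  neg_mem' := by
    rintro _ ⟨a, b, ha, ha', hb, hb', rfl⟩
    exact ⟨-a, -b, F.neg_mem ha, B.neg_mem _ ha', F.neg_mem hb, B.neg_mem _ hb', by ring⟩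

theorem nu_add {B : ValuationSubring L} {x y : L} (hx : x ∈ B.nonunits) (hy : y ∈ B.nonunits) :
    x + y ∈ B.nonunits := by
  rw [ValuationSubring.mem_nonunits_iff] at hx hy ⊢
  exact lt_of_le_of_lt (B.valuation.map_add x y) (max_lt hx hy)

theorem nu_mul {B : ValuationSubring L} {x y : L} (hx : x ∈ B) (hy : y ∈ B.nonunits) :
    x * y ∈ B.nonunits := by
  rw [ValuationSubring.mem_nonunits_iff] at hy ⊢
  rw [map_mul, mul_comm]
  exact mul_lt_one_of_lt_of_le hy ((B.valuation_le_one_iff x).mpr hx)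

/-- the kernel of `(F ∩ B)[s] → B / m` which sends `s` to minus one -/
def FI (F : Subfield L) (B : ValuationSubring L) (hB : (p : L) ∈ B.nonunits) (s : L)
    (hs : s ^ 2 = (p : L) + 1) : Ideal (FS F B s hs) where
  carrier := {x | ∃ a b : L, a ∈ F ∧ a ∈ B ∧ b ∈ F ∧ b ∈ B ∧ a - b ∈ B.nonunits ∧
    (x : L) = a + b * s}
  add_mem' := by
    rintro ⟨_, _⟩ ⟨_, _⟩ ⟨a, b, ha, ha', hb, hb', hab, rfl⟩ ⟨c, d, hc, hc', hd, hd', hcd, rfl⟩
    refine ⟨a + c, b + d, F.add_mem ha hc, B.add_mem _ _ ha' hc', F.add_mem hb hd,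
      B.add_mem _ _ hb' hd', ?_, ?_⟩
    · have : a + c - (b + d) = (a - b) + (c - d) := by ring
      rw [this]
      exact nu_add hab hcd
    · show (a + b * s) + (c + d * s) = _
      ring
  zero_mem' := ⟨0, 0, F.zero_mem, B.zero_mem, F.zero_mem, B.zero_mem, by
    rw [sub_zero, ValuationSubring.mem_nonunits_iff, map_zero]; exact zero_lt_one, by simp⟩
  smul_mem' := by
    rintro ⟨_, ⟨a, b, ha, ha', hb, hb', rfl⟩⟩ ⟨_, _⟩ ⟨c, d, hc, hc', hd, hd', hcd, rfl⟩
    refine ⟨a * c + b * d * (p + 1), a * d + b * c, ?_, ?_, ?_, ?_, ?_, ?_⟩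
    · exact F.add_mem (F.mul_mem ha hc) (F.mul_mem (F.mul_mem hb hd)
        (F.add_mem (natCast_mem F p) F.one_mem))
    · exact B.add_mem _ _ (B.mul_mem _ _ ha' hc') (B.mul_mem _ _ (B.mul_mem _ _ hb' hd')
        (B.add_mem _ _ (natCast_mem B p) B.one_mem))
    · exact F.add_mem (F.mul_mem ha hd) (F.mul_mem hb hc)
    · exact B.add_mem _ _ (B.mul_mem _ _ ha' hd') (B.mul_mem _ _ hb' hc')
    · have : a * c + b * d * (p + 1) - (a * d + b * c)
          = (a - b) * (c - d) + (b * d) * p := by ring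
      rw [this]
      exact nu_add (nu_mul (sub_mem ha' hb') hcd) (nu_mul (B.mul_mem _ _ hb' hd') hB)
    · show (a + b * s) * (c + d * s) = _
      linear_combination (b * d) * hs

/-- a place of a field `F` not containing `s = √(p + 1)` extends to a place at which `s` is
congruent to minus one -/
theorem place2 (F : Subfield L) (B : ValuationSubring L) (hB : (p : L) ∈ B.nonunits) {s : L}
    (hs : s ^ 2 = (p : L) + 1) (hsF : s ∉ F) :
    ∃ B' : ValuationSubring L, (p : L) ∈ B'.nonunits ∧ s ∈ B' ∧ rs B' s = -1 ∧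
      ∀ x ∈ F, (x ∈ B → x ∈ B') ∧ (x ∈ B.nonunits → x ∈ B'.nonunits) := by
  have hI : FI F B hB s hs ≠ ⊤ := by
    intro hI
    have h1 : (1 : FS F B s hs) ∈ FI F B hB s hs := by rw [hI]; trivial
    obtain ⟨a, b, ha, ha', hb, hb', hab, h⟩ := h1
    have h' : (1 : L) = a + b * s := h
    have hb0 : b = 0 := by
      by_contra hb0
      apply hsF
      have : s = (1 - a) * b⁻¹ := by
        field_simp
        linear_combination -h'
      rw [this]
      exact F.mul_mem (F.sub_mem F.one_mem ha) (F.inv_mem hb)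
    rw [hb0, zero_mul, add_zero] at h'
    rw [hb0, ← h', sub_zero, ValuationSubring.mem_nonunits_iff, map_one] at hab
    exact lt_irrefl _ hab
  obtain ⟨B', hAB, hBI⟩ := Ideal.image_subset_nonunits_valuationSubring _ hI
  have hnuB : ∀ x, x ∈ B.nonunits → x ∈ B := by
    intro x hx
    rw [← B.valuation_le_one_iff]
    rw [ValuationSubring.mem_nonunits_iff] at hx
    exact hx.le
  have key : ∀ x ∈ F, x ∈ B.nonunits → x ∈ B'.nonunits := by
    intro x hxF hx
    have hx1 : x ∈ FS F B s hs :=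
      ⟨x, 0, hxF, hnuB x hx, F.zero_mem, B.zero_mem, by ring⟩
    exact hBI ⟨⟨x, hx1⟩, ⟨x, 0, hxF, hnuB x hx, F.zero_mem, B.zero_mem, by rwa [sub_zero],
      by show x = _; ring⟩, rfl⟩
  have hs1 : s ∈ B' := hAB (⟨0, 1, F.zero_mem, B.zero_mem, F.one_mem, B.one_mem, by ring⟩ :
    s ∈ FS F B s hs)
  have hs2 : s + 1 ∈ B'.nonunits := by
    have hx1 : s + 1 ∈ FS F B s hs :=
      ⟨1, 1, F.one_mem, B.one_mem, F.one_mem, B.one_mem, by ring⟩
    exact hBI ⟨⟨s + 1, hx1⟩, ⟨1, 1, F.one_mem, B.one_mem, F.one_mem, B.one_mem, by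
      rw [sub_self, ValuationSubring.mem_nonunits_iff, map_zero]; exact zero_lt_one,
      by show s + 1 = _; ring⟩, rfl⟩
  refine ⟨B', key _ (natCast_mem F p) hB, hs1, ?_, fun x hxF => ⟨fun hx => ?_, key x hxF⟩⟩
  · rw [← rs_eq_zero B' (add_mem hs1 B'.one_mem), rs_add B' hs1 B'.one_mem, rs_one] at hs2
    exact eq_neg_of_add_eq_zero_left hs2
  · exact hAB (⟨x, 0, hxF, hx, F.zero_mem, B.zero_mem, by ring⟩ : x ∈ FS F B s hs)

/-- if `z` is congruent to one modulo all places over `p`, then `s = √(p + 1)` lies in every field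
which contains `s z` -/
theorem sqrt_mem [CharZero L] [Fact p.Prime] (hp5 : 5 ≤ p) {s : L} (hs : s ^ 2 = (p : L) + 1) {z : L}
    (hz : ∀ B : ValuationSubring L, (p : L) ∈ B.nonunits → z ∈ B ∧ rs B z = 1)
    (F : Subfield L) (hF : s * z ∈ F) : s ∈ F := by
  by_contra hsF
  obtain ⟨B, hB, hsB, hs1⟩ := place hp5 hs
  obtain ⟨B', hB', hsB', hs2, hF'⟩ := place2 F B hB hs hsF
  have h1 : rs B (s * z) = 1 := by
    rw [rs_mul B hsB (hz B hB).1, (hz B hB).2, hs1, one_mul]
  have h2 : s * z - 1 ∈ B.nonunits := by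
    have hm : s * z ∈ B := B.mul_mem _ _ hsB (hz B hB).1
    rw [← rs_eq_zero B (sub_mem hm B.one_mem), rs_sub B hm B.one_mem, h1, rs_one, sub_self]
  have h3 := (hF' _ (F.sub_mem hF F.one_mem)).2 h2
  have hm : s * z ∈ B' := B'.mul_mem _ _ hsB' (hz B' hB').1
  rw [← rs_eq_zero B' (sub_mem hm B'.one_mem), rs_sub B' hm B'.one_mem,
    rs_mul B' hsB' (hz B' hB').1, (hz B' hB').2, hs2, rs_one] at h3
  have := char_res B' hB'
  have h4 : ((2 : ℕ) : IsLocalRing.ResidueField B') = 0 := by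
    push_cast
    linear_combination -h3
  rw [CharP.cast_eq_zero_iff _ p] at h4
  have := Nat.le_of_dvd two_pos h4
  omega

end place

open NumberField ComplexConjugate in
/-- Kronecker's theorem for CM fields: an algebraic integer of absolute value one in a CM field is a
root of unity -/
theorem cm_root {K : Type} [Field K] [NumberField K] [IsCMField K] (φ : K →+* ℂ) (y : 𝓞 K)
    (h : ‖φ y‖ = 1) : ∃ n : ℕ, 0 < n ∧ (φ y) ^ n = 1 := by
  have h1 : (y : K) * IsCMField.complexConj K (y : K) = 1 := by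
    apply φ.injective
    rw [map_mul, IsCMField.complexEmbedding_complexConj, map_one, Complex.mul_conj,
      Complex.normSq_eq_norm_sq, h]
    norm_num
  have h2 : ∀ ψ : K →+* ℂ, ‖ψ (y : K)‖ = 1 := by
    intro ψ
    have h3 := congrArg ψ h1
    rw [map_mul, IsCMField.complexEmbedding_complexConj, map_one, Complex.mul_conj,
      Complex.normSq_eq_norm_sq] at h3
    have h4 : ‖ψ (y : K)‖ ^ 2 = 1 := by exact_mod_cast h3
    exact (pow_eq_one_iff_of_nonneg (norm_nonneg _) two_ne_zero).mp h4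
  obtain ⟨n, hn, hn1⟩ := NumberField.Embeddings.pow_eq_one_of_norm_eq_one K ℂ
    (RingOfIntegers.isIntegral_coe y) h2
  exact ⟨n, hn, by rw [← map_pow, hn1, map_one]⟩

end Pool.Agent.H207.RU
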