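import Pool.Agent.H207.WH.Cong

/-!
# Overlap phases which are roots of unity: two places over `p`
-/

set_option autoImplicit false

namespace Pool.Agent.H207.RU

open Finset Pool.Agent.H207.WH

section one

variable {L : Type*} [Field L] [CharZero L] (B : ValuationSubring L) {p : ℕ} [Fact p.Prime]

omit [CharZero L] in
theorem val_root {c : L} {n : ℕ} (hn : 0 < n) (hc : c ^ n = 1) : B.valuation c = 1 := by
  have h1 : B.valuation c ^ n = 1 := by rw [← map_pow, hc, map_one]
  rcases lt_trichotomy (B.valuation c) 1 with h | h | h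
  · exact absurd h1 (pow_lt_one₀ zero_le h hn.ne').ne
  · exact h
  · exact absurd h1 (one_lt_pow₀ h hn.ne').ne'

omit [CharZero L] in
/-- a root of unity of order prime to `p` which is congruent to one is one -/
theorem root_one (hB : (p : L) ∈ B.nonunits) {c : L} {m : ℕ} (hm : ¬ p ∣ m) (hc : c ^ m = 1)
    (h1 : rs B c = 1) : c = 1 := by
  by_contra hne
  have hm0 : 0 < m := Nat.pos_of_ne_zero (fun h => hm (h ▸ dvd_zero p))
  have hcB : c ∈ B := mem_of_val B (val_root B hm0 hc)
  have h2 : ∑ i ∈ range m, c ^ i = 0 := by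
    have h3 := mul_geom_sum c m
    rw [hc, sub_self] at h3
    exact (mul_eq_zero.mp h3).resolve_left (sub_ne_zero.mpr hne)
  have h4 := congrArg (rs B) h2
  rw [rs_sum B _ _ (fun i _ => pow_mem hcB i), rs_zero] at h4
  simp only [rs_pow B hcB, h1, one_pow, sum_const, card_range, nsmul_eq_mul, mul_one] at h4
  have := char_res B hB
  exact hm ((CharP.cast_eq_zero_iff _ p m).mp h4)

/-- the order of `c` is a power of `p` -/
def PP (p : ℕ) (c : L) : Prop := ∃ k : ℕ, c ^ p ^ k = 1

omit [CharZero L] in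
theorem pp_of (hB : (p : L) ∈ B.nonunits) {c : L} {n : ℕ} (hn : 0 < n) (hc : c ^ n = 1)
    (h1 : rs B c = 1) : PP p c := by
  have hp : p.Prime := Fact.out
  obtain ⟨k, m, hm, hnm⟩ := Nat.exists_eq_pow_mul_and_not_dvd hn.ne' p hp.ne_one
  refine ⟨k, root_one B hB hm ?_ ?_⟩
  · rw [← pow_mul, ← hnm, hc]
  · rw [rs_pow B (mem_of_val B (val_root B hn hc)), h1, one_pow]

omit [CharZero L] [Fact p.Prime] in
theorem pp_mul {a b : L} (ha : PP p a) (hb : PP p b) : PP p (a * b) := by
  obtain ⟨k, hk⟩ := ha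
  obtain ⟨l, hl⟩ := hb
  refine ⟨k + l, ?_⟩
  rw [mul_pow, pow_add, pow_mul, hk, one_pow, mul_comm (p ^ k), pow_mul, hl, one_pow, one_mul]

omit [CharZero L] [Fact p.Prime] in
theorem pp_inv {a : L} (ha : PP p a) : PP p a⁻¹ := by
  obtain ⟨k, hk⟩ := ha
  exact ⟨k, by rw [inv_pow, hk, inv_one]⟩

theorem pp_neg (hp2 : p ≠ 2) {a : L} (ha : PP p a) (hb : PP p (-a)) : False := by
  have hp : p.Prime := Fact.out
  have hodd : Odd p := hp.odd_of_ne_two hp2
  have h1 : PP p ((-a) * a⁻¹) := pp_mul hb (pp_inv ha)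
  have ha0 : a ≠ 0 := by
    rintro rfl
    obtain ⟨k, hk⟩ := ha
    rw [zero_pow (pow_pos hp.pos k).ne'] at hk
    exact zero_ne_one hk
  rw [neg_mul, mul_inv_cancel₀ ha0] at h1
  obtain ⟨k, hk⟩ := h1
  rw [(hodd.pow (n := k)).neg_one_pow] at hk
  have h2 : (2 : L) = 0 := by linear_combination -hk
  exact two_ne_zero h2

end one

section place

variable {L : Type*} [Field L] [CharZero L] {p : ℕ} [Fact p.Prime]

theorem indep (hp5 : 5 ≤ p) {s : L} (hs : s ^ 2 = (p : L) + 1) {a b : ℤ}
    (h : (a : L) + b * s = 0) : a = 0 ∧ b = 0 := by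
  have hp : p.Prime := Fact.out
  have h1 : (a : L) ^ 2 = (b : L) ^ 2 * ((p : L) + 1) := by
    rw [← hs]
    linear_combination ((a : L) - b * s) * h
  have h2 : a ^ 2 = b ^ 2 * ((p : ℤ) + 1) := by exact_mod_cast h1
  have hb : b = 0 := by
    by_contra hb
    have h3 : b ∣ a := by
      rw [← Int.pow_dvd_pow_iff (n := 2) two_ne_zero]
      exact ⟨_, h2⟩
    obtain ⟨c, rfl⟩ := h3
    have h4 : c ^ 2 = (p : ℤ) + 1 := by
      have : b ^ 2 ≠ 0 := pow_ne_zero 2 hb
      apply mul_left_cancel₀ this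
      rw [← h2]; ring
    have h5 : ((c.natAbs : ℤ)) ^ 2 = (p : ℤ) + 1 := by rw [Int.natAbs_sq]; exact h4
    have h6 : c.natAbs ^ 2 = p + 1 := by exact_mod_cast h5
    obtain ⟨e, he⟩ : ∃ e : ℕ, c.natAbs = e + 1 := by
      refine ⟨c.natAbs - 1, ?_⟩
      have : c.natAbs ≠ 0 := by
        intro h0
        rw [h0] at h6
        omega
      omega
    rw [he] at h6
    have h7 : p = e * (e + 2) := by nlinarith
    rw [h7] at hp
    rcases Nat.prime_mul_iff.mp hp with ⟨_, h8⟩ | ⟨_, h8⟩
    · omega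
    · rw [h8] at h7
      omega
  refine ⟨?_, hb⟩
  rw [hb] at h2
  exact pow_eq_zero_iff two_ne_zero |>.mp (by rw [h2]; ring)

/-- the ring `ℤ[s]` -/
def ZS (s : L) (hs : s ^ 2 = (p : L) + 1) : Subring L where
  carrier := {x | ∃ a b : ℤ, x = a + b * s}
  mul_mem' := by
    rintro _ _ ⟨a, b, rfl⟩ ⟨c, d, rfl⟩
    refine ⟨a * c + b * d * (p + 1), a * d + b * c, ?_⟩
    push_cast
    linear_combination ((b : L) * d) * hs
  one_mem' := ⟨1, 0, by push_cast; ring⟩
  add_mem' := by
    rintro _ _ ⟨a, b, rfl⟩ ⟨c, d, rfl⟩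
    exact ⟨a + c, b + d, by push_cast; ring⟩
  zero_mem' := ⟨0, 0, by push_cast; ring⟩
  neg_mem' := by
    rintro _ ⟨a, b, rfl⟩
    exact ⟨-a, -b, by push_cast; ring⟩

/-- there is a place over `p` at which `s` is congruent to one -/
theorem place (hp5 : 5 ≤ p) {s : L} (hs : s ^ 2 = (p : L) + 1) :
    ∃ B : ValuationSubring L, (p : L) ∈ B.nonunits ∧ s ∈ B ∧ rs B s = 1 := by
  have hp : p.Prime := Fact.out
  have hpA : (p : L) ∈ ZS s hs := natCast_mem _ p
  have hsA : s - 1 ∈ ZS s hs := ⟨-1, 1, by push_cast; ring⟩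
  have hI : Ideal.span {(⟨(p : L), hpA⟩ : ZS s hs), (⟨s - 1, hsA⟩ : ZS s hs)} ≠ ⊤ := by
    intro hI
    have h1 : (1 : ZS s hs) ∈ Ideal.span {(⟨(p : L), hpA⟩ : ZS s hs), (⟨s - 1, hsA⟩ : ZS s hs)} := by
      rw [hI]; trivial
    rw [Ideal.mem_span_pair] at h1
    obtain ⟨⟨x, hx⟩, ⟨y, hy⟩, hxy⟩ := h1
    have hxy' : x * (p : L) + y * (s - 1) = 1 := congrArg Subtype.val hxy
    obtain ⟨a, b, rfl⟩ := hx
    obtain ⟨c, d, rfl⟩ := hy
    have h2 : (((a * p - c + d * (p + 1) - 1 : ℤ)) : L) + ((b * p + c - d : ℤ) : L) * s = 0 := by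
      push_cast
      linear_combination hxy' - (d : L) * hs
    obtain ⟨h3, h4⟩ := indep hp5 hs h2
    have h5 : (p : ℤ) ∣ 1 := ⟨a + b + d, by linear_combination -h3 - h4⟩
    have h6 : (p : ℤ) ≤ 1 := Int.le_of_dvd one_pos h5
    omega
  obtain ⟨B, hAB, hB⟩ := Ideal.image_subset_nonunits_valuationSubring _ hI
  have h1 : (p : L) ∈ B.nonunits := hB ⟨⟨(p : L), hpA⟩, Ideal.subset_span (by simp), rfl⟩
  have h2 : s - 1 ∈ B.nonunits := hB ⟨⟨s - 1, hsA⟩, Ideal.subset_span (by simp), rfl⟩
  have h3 : s ∈ B := hAB (⟨0, 1, by push_cast; ring⟩ : s ∈ ZS s hs)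
  refine ⟨B, h1, h3, ?_⟩
  rw [← rs_eq_zero B (sub_mem h3 B.one_mem), rs_sub B h3 B.one_mem, rs_one] at h2
  exact sub_eq_zero.mp h2

end place

section main

variable {L : Type*} [Field L] [CharZero L] {p : ℕ} [Fact p.Prime]

/-- at a place at which `s` is a unit all overlaps are units, if all but fewer than `2 p` of the
normalised overlaps are roots of unity -/
theorem units_of (B : ValuationSubring L) (hp2 : p ≠ 2) (hB : (p : L) ∈ B.nonunits)
    {χ : AddChar (ZMod p) L} (hχ : χ.IsPrimitive) {w u : ZMod p → L} (hS : Sic χ w u)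
    {s : L} (hsB : B.valuation s = 1) (E : Finset (ZMod p × ZMod p)) (hE : E.card < 2 * p)
    (hr : ∀ a b, (a, b) ∉ E → ¬ (a = 0 ∧ b = 0) → ∃ n : ℕ, 0 < n ∧ (s * ov χ w u a b) ^ n = 1)
    (a b : ZMod p) : B.valuation (ov χ w u a b) = 1 := by
  classical
  have hout : ∀ g : ZMod p × ZMod p, g ∉ E → B.valuation (ov χ w u g.1 g.2) = 1 := by
    rintro ⟨a, b⟩ hab
    by_cases h0 : a = 0 ∧ b = 0
    · simp only [h0.1, h0.2, hS.zero, map_one]
    · obtain ⟨n, hn, hn1⟩ := hr a b hab h0
      have h1 := val_root B hn hn1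
      rw [map_mul, hsB, one_mul] at h1
      exact h1
  have hflat : ∀ a b, B.valuation (ov χ w u a b) * B.valuation (ov χ w u (-a) (-b)) = 1 := by
    intro a b
    by_cases h0 : a = 0 ∧ b = 0
    · rw [h0.1, h0.2, neg_zero, hS.zero, map_one, one_mul]
    · have h3 := congrArg B.valuation (hS.flat a b h0)
      rwa [map_mul, map_mul, chi_val, one_mul, map_inv₀, val_p1 B hB, inv_one] at h3
  obtain ⟨x0, y0, hA0, hmem, v, v', hvv, hinv⟩ := red B hp2 hB hχ hS
  have hv0 : ((v, v') : ZMod p × ZMod p) ≠ 0 := by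
    intro h
    have h1 : v = 0 := congrArg Prod.fst h
    have h2 : v' = 0 := congrArg Prod.snd h
    rcases hvv with h3 | h3
    · exact h3 h1
    · exact h3 h2
  have hAge : 1 ≤ B.valuation (ov χ w u x0 y0) := by
    have h1 := hmem 0 0
    rw [hS.zero, one_div, ← B.valuation_le_one_iff, map_inv₀] at h1
    by_contra hlt
    push Not at hlt
    have h2 : B.valuation (ov χ w u x0 y0) ≠ 0 := (B.valuation.ne_zero_iff).mpr hA0
    have h3 := mul_lt_one_of_lt_of_le hlt h1
    rw [mul_inv_cancel₀ h2] at h3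
    exact lt_irrefl _ h3
  have hA1 : B.valuation (ov χ w u x0 y0) = 1 := by
    by_contra hne
    have hgt : 1 < B.valuation (ov χ w u x0 y0) := lt_of_le_of_ne hAge (Ne.symm hne)
    have hval : ∀ j : ZMod p, B.valuation (ov χ w u ((x0, y0) + j • (v, v')).1
        ((x0, y0) + j • (v, v')).2) = B.valuation (ov χ w u x0 y0) := by
      intro j
      have h2 := inv_mul (fun g : ZMod p × ZMod p => rs B (ov χ w u g.1 g.2 / ov χ w u x0 y0))
        (v, v') (fun g => hinv g.1 g.2) j (x0, y0)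
      simp only at h2
      rw [div_self hA0, rs_one] at h2
      have h4 : rs B (ov χ w u ((x0, y0) + j • (v, v')).1 ((x0, y0) + j • (v, v')).2 /
          ov χ w u x0 y0) ≠ 0 := by rw [h2]; exact one_ne_zero
      rw [rs_ne_zero_val B (hmem _ _), map_div₀] at h4
      have h5 : B.valuation (ov χ w u x0 y0) ≠ 0 := (B.valuation.ne_zero_iff).mpr hA0
      exact (div_eq_one_iff_eq h5).mp h4
    have hall : ∀ j : ZMod p, (x0, y0) + j • (v, v') ∈ E := by
      intro j
      by_contra hj
      have h3 := hout _ hj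
      rw [hval j] at h3
      exact hne h3
    have hval' : ∀ j : ZMod p, B.valuation (ov χ w u (-((x0, y0) + j • (v, v'))).1
        (-((x0, y0) + j • (v, v'))).2) < 1 := by
      intro j
      have h3 := hflat ((x0, y0) + j • (v, v')).1 ((x0, y0) + j • (v, v')).2
      rw [hval j] at h3
      show B.valuation (ov χ w u (-((x0, y0) + j • (v, v')).1) (-((x0, y0) + j • (v, v')).2)) < 1
      rw [eq_inv_of_mul_eq_one_right h3]
      exact inv_lt_one_of_one_lt₀ hgt
    have hall' : ∀ j : ZMod p, -((x0, y0) + j • (v, v')) ∈ E := by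
      intro j
      by_contra hj
      have h3 := hout _ hj
      exact absurd h3 (hval' j).ne
    have hinj : Function.Injective (fun j : ZMod p => (x0, y0) + j • (v, v')) := by
      intro i j hij
      have h6 : (i - j) • ((v, v') : ZMod p × ZMod p) = 0 := by
        rw [sub_smul, sub_eq_zero]
        exact add_left_cancel hij
      exact sub_eq_zero.mp ((smul_eq_zero.mp h6).resolve_right hv0)
    have hinj' : Function.Injective (fun j : ZMod p => -((x0, y0) + j • (v, v'))) := by
      intro i j hij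
      exact hinj (neg_injective hij)
    have hsub : (univ.image (fun j : ZMod p => (x0, y0) + j • (v, v'))) ∪
        (univ.image (fun j : ZMod p => -((x0, y0) + j • (v, v')))) ⊆ E := by
      intro g hg
      rcases Finset.mem_union.mp hg with hg | hg
      · obtain ⟨j, _, rfl⟩ := Finset.mem_image.mp hg
        exact hall j
      · obtain ⟨j, _, rfl⟩ := Finset.mem_image.mp hg
        exact hall' j
    have hdisj : Disjoint (univ.image (fun j : ZMod p => (x0, y0) + j • (v, v')))
        (univ.image (fun j : ZMod p => -((x0, y0) + j • (v, v')))) := by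
      rw [Finset.disjoint_left]
      intro g hg hg'
      obtain ⟨j, _, hj⟩ := Finset.mem_image.mp hg
      obtain ⟨k, _, hk⟩ := Finset.mem_image.mp hg'
      have hj' : (x0, y0) + j • (v, v') = g := hj
      have hk' : -((x0, y0) + k • (v, v')) = g := hk
      have h1 := hval j
      have h2 := hval' k
      rw [hk', ← hj', h1] at h2
      exact absurd hgt h2.not_gt
    have hcard := Finset.card_le_card hsub
    rw [Finset.card_union_of_disjoint hdisj, Finset.card_image_of_injective _ hinj,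
      Finset.card_image_of_injective _ hinj', Finset.card_univ, ZMod.card] at hcard
    omega
  have hle : ∀ a b, B.valuation (ov χ w u a b) ≤ 1 := by
    intro a b
    have h2 := (B.valuation_le_one_iff _).mpr (hmem a b)
    rwa [map_div₀, hA1, div_one] at h2
  exact le_antisymm (hle a b) (by
    by_contra hlt
    push Not at hlt
    have h4 := mul_lt_one_of_lt_of_le hlt (hle (-a) (-b))
    exact absurd (hflat a b) h4.ne)

/-- translation invariance of the overlaps modulo a place at which all of them are units -/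
theorem trans (B : ValuationSubring L) (hp2 : p ≠ 2) (hB : (p : L) ∈ B.nonunits)
    {χ : AddChar (ZMod p) L} (hχ : χ.IsPrimitive) {w u : ZMod p → L} (hS : Sic χ w u)
    (hval : ∀ a b, B.valuation (ov χ w u a b) = 1) :
    ∃ v : ZMod p × ZMod p, v ≠ 0 ∧ ∀ (j : ZMod p) (g : ZMod p × ZMod p),
      rs B (ov χ w u (g + j • v).1 (g + j • v).2) = rs B (ov χ w u g.1 g.2) := by
  obtain ⟨x0, y0, hA0, hmem, v, v', hvv, hinv⟩ := red B hp2 hB hχ hS
  refine ⟨(v, v'), ?_, fun j g => ?_⟩
  · intro h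
    have h1 : v = 0 := congrArg Prod.fst h
    have h2 : v' = 0 := congrArg Prod.snd h
    rcases hvv with h3 | h3
    · exact h3 h1
    · exact h3 h2
  · have hA : ov χ w u x0 y0 ∈ B := mem_of_val B (hval _ _)
    have key : ∀ x y, rs B (ov χ w u x y)
        = rs B (ov χ w u x y / ov χ w u x0 y0) * rs B (ov χ w u x0 y0) := by
      intro x y
      rw [← rs_mul B (hmem _ _) hA, div_mul_cancel₀ _ hA0]
    rw [key, key g.1 g.2]
    congr 1
    exact inv_mul (fun g : ZMod p × ZMod p => rs B (ov χ w u g.1 g.2 / ov χ w u x0 y0))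
        (v, v') (fun g => hinv g.1 g.2) j g

omit [CharZero L] in
theorem three (x y z : L) (hy : y ≠ 0) (hz : z ≠ 0) :
    x = y * (z * y⁻¹) * (z * x⁻¹)⁻¹ := by
  rw [mul_inv, inv_inv]
  field_simp

omit [CharZero L] [Fact p.Prime] in
theorem pp_ne (hp : p.Prime) {x : L} (h : PP p x) : x ≠ 0 := by
  rintro rfl
  obtain ⟨k, hk⟩ := h
  rw [zero_pow (pow_pos hp.pos k).ne'] at hk
  exact zero_ne_one hk

/-- the two places -/
theorem two_places (hp5 : 5 ≤ p) {s : L} (hs : s ^ 2 = (p : L) + 1) :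
    ∃ B B' : ValuationSubring L, (p : L) ∈ B.nonunits ∧ (p : L) ∈ B'.nonunits ∧ s ∈ B ∧ s ∈ B' ∧
      rs B s = 1 ∧ rs B' s = -1 ∧ B.valuation s = 1 ∧ B'.valuation s = 1 := by
  obtain ⟨B, hB, hsB, hs1⟩ := place hp5 hs
  obtain ⟨B', hB', hsB'', hs2'⟩ := place (s := -s) hp5 (by rw [neg_sq]; exact hs)
  have hsB' : s ∈ B' := by simpa using neg_mem hsB''
  have hs2 : rs B' s = -1 := by
    have h1 : rs B' (0 - s) = 0 - rs B' s := by rw [rs_sub B' B'.zero_mem hsB', rs_zero]
    rw [zero_sub, zero_sub, hs2'] at h1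
    rw [h1, neg_neg]
  refine ⟨B, B', hB, hB', hsB, hsB', hs1, hs2, ?_, ?_⟩
  · rw [← rs_ne_zero_val B hsB, hs1]; exact one_ne_zero
  · rw [← rs_ne_zero_val B' hsB', hs2]; exact neg_ne_zero.mpr one_ne_zero

omit [CharZero L] in
/-- a root of unity which is minus one at a place over `p` -/
theorem pp_of_neg (B : ValuationSubring L) (hB : (p : L) ∈ B.nonunits) {c : L} {n : ℕ}
    (hn : 0 < n) (hc : c ^ n = 1) (h1 : rs B c = -1) : PP p (-c) := by
  refine pp_of B hB (n := 2 * n) (by omega) ?_ ?_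
  · rw [pow_mul, neg_sq, ← pow_mul, mul_comm 2 n, pow_mul, hc, one_pow]
  · have h2 : rs B (0 - c) = 0 - rs B c := by
      rw [rs_sub B B.zero_mem (mem_of_val B (val_root B hn hc)), rs_zero]
    rw [zero_sub, zero_sub, h1, neg_neg] at h2
    exact h2

/-- **Main theorem.** For a prime `p ≥ 5` the set of the indices different from zero at which the
normalised overlap of a Weyl-Heisenberg covariant maximal equiangular tight frame is not a root of
unity contains all nonzero multiples of some `v ≠ 0` or has at least `2 p - 2` elements. -/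
theorem main (hp5 : 5 ≤ p) {χ : AddChar (ZMod p) L} (hχ : χ.IsPrimitive) {w u : ZMod p → L}
    (hS : Sic χ w u) {s : L} (hs : s ^ 2 = (p : L) + 1) (E : Finset (ZMod p × ZMod p))
    (hE : E.card < 2 * p - 2) (hsym : ∀ g ∈ E, -g ∈ E)
    (hline : ∀ v : ZMod p × ZMod p, v ≠ 0 → ∃ j : ZMod p, j ≠ 0 ∧ j • v ∉ E)
    (hr : ∀ a b, (a, b) ∉ E → ¬ (a = 0 ∧ b = 0) →
      ∃ n : ℕ, 0 < n ∧ (s * ov χ w u a b) ^ n = 1) : False := by
  classical
  have hp : p.Prime := Fact.out
  have hp2 : p ≠ 2 := by omega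
  obtain ⟨B, B', hB, hB', hsB, hsB', hs1, hs2, hv1, hv2⟩ := two_places hp5 hs
  have hval1 := units_of B hp2 hB hχ hS hv1 E (by omega) hr
  have hval2 := units_of B' hp2 hB' hχ hS hv2 E (by omega) hr
  obtain ⟨v, hv0, hv⟩ := trans B hp2 hB hχ hS hval1
  obtain ⟨v', hv0', hv'⟩ := trans B' hp2 hB' hχ hS hval2
  have hne : ∀ g : ZMod p × ZMod p, g ≠ 0 → ¬ (g.1 = 0 ∧ g.2 = 0) := by
    intro g hg h
    exact hg (Prod.ext h.1 h.2)
  have hone : ∀ j : ZMod p, rs B (ov χ w u (j • v).1 (j • v).2) = 1 := by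
    intro j
    have h1 := hv j 0
    rw [zero_add, Prod.fst_zero, Prod.snd_zero, hS.zero, rs_one] at h1
    exact h1
  have hone' : ∀ j : ZMod p, rs B' (ov χ w u (j • v').1 (j • v').2) = 1 := by
    intro j
    have h1 := hv' j 0
    rw [zero_add, Prod.fst_zero, Prod.snd_zero, hS.zero, rs_one] at h1
    exact h1
  by_cases hdep : ∃ c : ZMod p, v = c • v'
  · -- the two translations are parallel
    obtain ⟨i, hi0, hiE⟩ := hline v hv0
    have hiv : i • v ≠ 0 := by
      intro h
      rcases smul_eq_zero.mp h with h | h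
      · exact hi0 h
      · exact hv0 h
    obtain ⟨n1, hn1, hn1'⟩ := hr (i • v).1 (i • v).2 hiE (hne _ hiv)
    have hpp1 : PP p (s * ov χ w u (i • v).1 (i • v).2) := by
      refine pp_of B hB hn1 hn1' ?_
      rw [rs_mul B hsB (mem_of_val B (hval1 _ _)), hone, hs1, one_mul]
    obtain ⟨c, hc⟩ := hdep
    have h1 : PP p (-(s * ov χ w u (i • v).1 (i • v).2)) := by
      refine pp_of_neg B' hB' hn1 hn1' ?_
      have h2 := hone' (i * c)
      rw [mul_smul, ← hc] at h2
      rw [rs_mul B' hsB' (mem_of_val B' (hval2 _ _)), h2, hs2, mul_one]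
    exact pp_neg hp2 hpp1 h1
  -- multiples of `v` and `v'` outside `E` with sum outside `E`
  have hxx : ∀ i j k l : ZMod p, i • v + j • v' = k • v + l • v' → i = k ∧ j = l := by
    intro i j k l h
    have h1 : (i - k) • v = (l - j) • v' := by
      rw [sub_smul, sub_smul]
      linear_combination (exp := 1) h
    have hik : i = k := by
      by_contra hik
      apply hdep
      refine ⟨(i - k)⁻¹ * (l - j), ?_⟩
      rw [mul_smul, ← h1, smul_smul, inv_mul_cancel₀ (sub_ne_zero.mpr hik), one_smul]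
    refine ⟨hik, ?_⟩
    rw [hik, sub_self, zero_smul] at h1
    exact (sub_eq_zero.mp ((smul_eq_zero.mp h1.symm).resolve_right hv0')).symm
  obtain ⟨i, j, hi0, hj0, hiE, hjE, hijE⟩ : ∃ i j : ZMod p, i ≠ 0 ∧ j ≠ 0 ∧ i • v ∉ E ∧
      j • v' ∉ E ∧ i • v + j • v' ∉ E := by
    by_contra hcon
    push Not at hcon
    set I : Finset (ZMod p) := univ.filter (fun i => i ≠ 0 ∧ i • v ∉ E) with hI
    set J : Finset (ZMod p) := univ.filter (fun j => j ≠ 0 ∧ j • v' ∉ E) with hJ
    set I' : Finset (ZMod p) := univ.filter (fun i => i ≠ 0 ∧ i • v ∈ E) with hI'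
    set J' : Finset (ZMod p) := univ.filter (fun j => j ≠ 0 ∧ j • v' ∈ E) with hJ'
    have htwo : ∀ t : ZMod p × ZMod p, t ≠ 0 →
        2 ≤ (univ.filter (fun i : ZMod p => i ≠ 0 ∧ i • t ∉ E)).card := by
      intro t ht
      obtain ⟨i, hi0, hiE⟩ := hline t ht
      have hne : i ≠ -i := by
        intro h
        have h2 : (2 : ZMod p) * i = 0 := by linear_combination h
        have h3 : (2 : ZMod p) ≠ 0 := by
          intro h3
          have h4 : ((2 : ℕ) : ZMod p) = 0 := by exact_mod_cast h3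
          rw [ZMod.natCast_eq_zero_iff] at h4
          exact hp2 ((Nat.prime_dvd_prime_iff_eq hp Nat.prime_two).mp h4)
        exact (mul_ne_zero h3 hi0) h2
      have h1 : ({i, -i} : Finset (ZMod p)) ⊆ univ.filter (fun i : ZMod p => i ≠ 0 ∧ i • t ∉ E) := by
        intro x hx
        rw [Finset.mem_filter]
        rcases Finset.mem_insert.mp hx with rfl | hx
        · exact ⟨mem_univ _, hi0, hiE⟩
        · rw [Finset.mem_singleton] at hx
          rw [hx]
          refine ⟨mem_univ _, neg_ne_zero.mpr hi0, fun h => hiE ?_⟩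
          have := hsym _ h
          rwa [neg_smul, neg_neg] at this
      have h2 := Finset.card_le_card h1
      rwa [Finset.card_pair hne] at h2
    have hsplit : ∀ t : ZMod p × ZMod p,
        (univ.filter (fun i : ZMod p => i ≠ 0 ∧ i • t ∉ E)).card +
        (univ.filter (fun i : ZMod p => i ≠ 0 ∧ i • t ∈ E)).card = p - 1 := by
      intro t
      have h1 : ((univ : Finset (ZMod p)).erase 0).card = p - 1 := by
        rw [Finset.card_erase_of_mem (mem_univ _), Finset.card_univ, ZMod.card]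
      rw [← h1, ← Finset.card_union_of_disjoint]
      · congr 1
        ext x
        simp only [Finset.mem_union, Finset.mem_filter, mem_univ, true_and, Finset.mem_erase,
          and_true]
        tauto
      · rw [Finset.disjoint_left]
        intro x hx hx'
        rw [Finset.mem_filter] at hx hx'
        exact hx.2.2 hx'.2.2
    have hI2 := htwo v hv0
    have hJ2 := htwo v' hv0'
    have hIs := hsplit v
    have hJs := hsplit v'
    rw [← hI, ← hI'] at hIs
    rw [← hJ, ← hJ'] at hJs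
    rw [← hI] at hI2
    rw [← hJ] at hJ2
    have hcard : (((I' ×ˢ ({0} : Finset (ZMod p))) ∪ (({0} : Finset (ZMod p)) ×ˢ J')) ∪
        (I ×ˢ J)).card ≤ E.card := by
      apply Finset.card_le_card_of_injOn (fun x : ZMod p × ZMod p => x.1 • v + x.2 • v')
      · rintro ⟨a, b⟩ hx
        have hx' : (a, b) ∈ ((I' ×ˢ ({0} : Finset (ZMod p))) ∪ (({0} : Finset (ZMod p)) ×ˢ J')) ∪
          (I ×ˢ J) := hx
        show a • v + b • v' ∈ E
        rcases Finset.mem_union.mp hx' with hx' | hx'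
        · rcases Finset.mem_union.mp hx' with hx' | hx'
          · obtain ⟨h1, h2⟩ := Finset.mem_product.mp hx'
            have h2' : b = 0 := Finset.mem_singleton.mp h2
            rw [h2', zero_smul, add_zero]
            exact (Finset.mem_filter.mp h1).2.2
          · obtain ⟨h1, h2⟩ := Finset.mem_product.mp hx'
            have h1' : a = 0 := Finset.mem_singleton.mp h1
            rw [h1', zero_smul, zero_add]
            exact (Finset.mem_filter.mp h2).2.2
        · obtain ⟨h1, h2⟩ := Finset.mem_product.mp hx'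
          have h1' := (Finset.mem_filter.mp h1).2
          have h2' := (Finset.mem_filter.mp h2).2
          exact hcon a b h1'.1 h2'.1 h1'.2 h2'.2
      · rintro ⟨a, b⟩ _ ⟨c, d⟩ _ h
        obtain ⟨h1, h2⟩ := hxx a b c d h
        rw [h1, h2]
    rw [Finset.card_union_of_disjoint, Finset.card_union_of_disjoint, Finset.card_product,
      Finset.card_product, Finset.card_product, Finset.card_singleton] at hcard
    · have hab : I.card + J.card ≤ I.card * J.card := by nlinarith
      omega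
    · rw [Finset.disjoint_left]
      rintro ⟨a, b⟩ hx hx'
      have h1 := (Finset.mem_filter.mp (Finset.mem_product.mp hx).1).2.1
      have h2 := Finset.mem_singleton.mp (Finset.mem_product.mp hx').1
      exact h1 h2
    · rw [Finset.disjoint_left]
      rintro ⟨a, b⟩ hx hx'
      have h1 := (Finset.mem_filter.mp (Finset.mem_product.mp hx').1).2.1
      have h2 := (Finset.mem_filter.mp (Finset.mem_product.mp hx').2).2.1
      rcases Finset.mem_union.mp hx with hx | hx
      · exact h2 (Finset.mem_singleton.mp (Finset.mem_product.mp hx).2)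
      · exact h1 (Finset.mem_singleton.mp (Finset.mem_product.mp hx).1)
  have hiv : i • v ≠ 0 := by
    intro h
    rcases smul_eq_zero.mp h with h | h
    · exact hi0 h
    · exact hv0 h
  obtain ⟨n1, hn1, hn1'⟩ := hr (i • v).1 (i • v).2 hiE (hne _ hiv)
  have hpp1 : PP p (s * ov χ w u (i • v).1 (i • v).2) := by
    refine pp_of B hB hn1 hn1' ?_
    rw [rs_mul B hsB (mem_of_val B (hval1 _ _)), hone, hs1, one_mul]
  have hjv : j • v' ≠ 0 := by
    intro h
    rcases smul_eq_zero.mp h with h | h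
    · exact hj0 h
    · exact hv0' h
  have hsum : i • v + j • v' ≠ 0 := by
    intro h
    apply hdep
    refine ⟨i⁻¹ * (-j), ?_⟩
    rw [mul_smul, neg_smul, ← eq_neg_of_add_eq_zero_left h, smul_smul, inv_mul_cancel₀ hi0,
      one_smul]
  obtain ⟨n2, hn2, hn2'⟩ := hr (j • v').1 (j • v').2 hjE (hne _ hjv)
  obtain ⟨n3, hn3, hn3'⟩ := hr (i • v + j • v').1 (i • v + j • v').2 hijE (hne _ hsum)
  have hpp2 : PP p (-(s * ov χ w u (j • v').1 (j • v').2)) := by
    refine pp_of_neg B' hB' hn2 hn2' ?_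
    rw [rs_mul B' hsB' (mem_of_val B' (hval2 _ _)), hone', hs2, mul_one]
  -- quotients of overlaps
  have hq : ∀ (C : ValuationSubring L), (p : L) ∈ C.nonunits → C.valuation s = 1 →
      (∀ a b, C.valuation (ov χ w u a b) = 1) → ∀ g h : ZMod p × ZMod p, ∀ n m : ℕ, 0 < n → 0 < m →
      (s * ov χ w u g.1 g.2) ^ n = 1 → (s * ov χ w u h.1 h.2) ^ m = 1 →
      (rs C (ov χ w u h.1 h.2) = rs C (ov χ w u g.1 g.2)) →
      PP p ((s * ov χ w u h.1 h.2) * (s * ov χ w u g.1 g.2)⁻¹) := by
    intro C hC hsC hvC g h n m hn hm hn1 hm1 heq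
    refine pp_of C hC (n := n * m) (Nat.mul_pos hn hm) ?_ ?_
    · rw [mul_pow, mul_comm n m, pow_mul, hm1, one_pow, one_mul, inv_pow, mul_comm m n, pow_mul,
        hn1, one_pow, inv_one]
    · have hsm : s ∈ C := mem_of_val C hsC
      have hgv : C.valuation (s * ov χ w u g.1 g.2) = 1 := by
        rw [map_mul, hsC, hvC, one_mul]
      have hgr : rs C (s * ov χ w u g.1 g.2) ≠ 0 := (rs_ne_zero_val C (mem_of_val C hgv)).mpr hgv
      rw [rs_mul C (C.mul_mem _ _ hsm (mem_of_val C (hvC _ _))) (inv_mem_of_val C hgv),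
        rs_mul C hsm (mem_of_val C (hvC _ _)), heq, ← rs_mul C hsm (mem_of_val C (hvC _ _)),
        rs_inv C hgv, mul_inv_cancel₀ hgr]
  have h1 := hq B' hB' hv2 hval2 (i • v) (i • v + j • v') n1 n3 hn1 hn3 hn1' hn3' (hv' j (i • v))
  have h2 := hq B hB hv1 hval1 (j • v') (i • v + j • v') n2 n3 hn2 hn3 hn2' hn3' (by
    rw [add_comm]
    exact hv i (j • v'))
  have hne3 : s * ov χ w u (i • v + j • v').1 (i • v + j • v').2 ≠ 0 := by
    intro h0
    rw [h0, zero_pow hn3.ne'] at hn3'
    exact zero_ne_one hn3'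
  apply pp_neg hp2 (a := s * ov χ w u (j • v').1 (j • v').2) _ hpp2
  rw [three (s * ov χ w u (j • v').1 (j • v').2) (s * ov χ w u (i • v).1 (i • v).2)
    (s * ov χ w u (i • v + j • v').1 (i • v + j • v').2) (pp_ne hp hpp1) hne3]
  exact pp_mul (pp_mul hpp1 h1) (pp_inv h2)

/-- if all overlaps are congruent to one modulo all places over `p`, then no normalised overlap is
a root of unity -/
theorem no_root (hp5 : 5 ≤ p) {s : L} (hs : s ^ 2 = (p : L) + 1) {z : L}
    (hz : ∀ B : ValuationSubring L, (p : L) ∈ B.nonunits → z ∈ B ∧ rs B z = 1) {n : ℕ}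
    (hn : 0 < n) (h : (s * z) ^ n = 1) : False := by
  have hp2 : p ≠ 2 := by omega
  obtain ⟨B, B', hB, hB', hsB, hsB', hs1, hs2, hv1, hv2⟩ := two_places hp5 hs
  refine pp_neg hp2 (a := s * z) (pp_of B hB hn h ?_) (pp_of_neg B' hB' hn h ?_)
  · rw [rs_mul B hsB (hz B hB).1, (hz B hB).2, hs1, one_mul]
  · rw [rs_mul B' hsB' (hz B' hB').1, (hz B' hB').2, hs2, mul_one]

end main

end Pool.Agent.H207.RU
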