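import Pool.Agent.H207.RU.Prod

/-!
# Weyl-Heisenberg SIC fiducials in prime dimensions and their normalised overlaps
-/

set_option autoImplicit false

namespace Pool.Agent.H207.RU

open ComplexConjugate NumberField

variable {p : ℕ} [Fact p.Prime]

/-- the displacement operator `D_(a,b) = X ^ a Z ^ b`, which maps `|j⟩` to `ω ^ (b j) |j + a⟩`, that
is `(D_(a,b) ψ)(k) = ω ^ (b (k - a)) ψ(k - a)` with `ω = exp(2 π i / p)` -/
noncomputable def disp (g : ZMod p × ZMod p) (ψ : EuclideanSpace ℂ (ZMod p)) :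
    EuclideanSpace ℂ (ZMod p) :=
  WithLp.toLp 2 (fun k => ZMod.stdAddChar (g.2 * (k - g.1)) * ψ (k - g.1))

/-- `ψ` is a Weyl-Heisenberg SIC fiducial: a unit vector with `|⟨ψ, D_g ψ⟩| ^ 2 = 1 / (p + 1)` for
all `g ≠ 0` -/
def IsFiducial (ψ : EuclideanSpace ℂ (ZMod p)) : Prop :=
  ‖ψ‖ = 1 ∧ ∀ g : ZMod p × ZMod p, g ≠ 0 → ‖inner ℂ ψ (disp g ψ)‖ ^ 2 = 1 / ((p : ℝ) + 1)

/-- the normalised overlap `√(p + 1) ⟨ψ, D_g ψ⟩` -/
noncomputable def phase (ψ : EuclideanSpace ℂ (ZMod p)) (g : ZMod p × ZMod p) : ℂ :=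
  (√((p : ℝ) + 1) : ℝ) * inner ℂ ψ (disp g ψ)

/-- `x` is a root of unity or an algebraic integer of a CM field (for instance a cyclotomic
integer) -/
def Special (x : ℂ) : Prop :=
  (∃ n : ℕ, 0 < n ∧ x ^ n = 1) ∨
    ∃ (K : Type) (_ : Field K) (_ : NumberField K) (_ : IsCMField K) (φ : K →+* ℂ) (y : 𝓞 K),
      φ y = x

theorem inner_disp (ψ : EuclideanSpace ℂ (ZMod p)) (g : ZMod p × ZMod p) :
    inner ℂ ψ (disp g ψ) = Pool.Agent.H207.WH.ov ZMod.stdAddChar ψ (fun k => conj (ψ k)) g.1 g.2 := by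
  rw [PiLp.inner_apply, Pool.Agent.H207.WH.ov, ← Equiv.sum_comp (Equiv.addRight g.1)]
  apply Finset.sum_congr rfl
  intro k _
  simp only [disp, Equiv.coe_addRight, add_sub_cancel_right, RCLike.inner_apply]
  ring

theorem sic (ψ : EuclideanSpace ℂ (ZMod p)) (hψ : IsFiducial ψ) :
    Pool.Agent.H207.WH.Sic ZMod.stdAddChar ψ (fun k => conj (ψ k)) := by
  constructor
  · have h1 := hψ.1
    have h2 : inner ℂ ψ ψ = (1 : ℂ) := by
      rw [inner_self_eq_norm_sq_to_K, h1]; simp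
    rw [← h2, PiLp.inner_apply, Pool.Agent.H207.WH.ov]
    apply Finset.sum_congr rfl
    intro k _
    rw [zero_mul, AddChar.map_zero_eq_one, add_zero, mul_one, RCLike.inner_apply]
  · intro a b hab
    have h1 := hψ.2 (a, b) (fun h => hab ⟨congrArg Prod.fst h, congrArg Prod.snd h⟩)
    rw [inner_disp] at h1
    simp only at h1
    have h2 : Pool.Agent.H207.WH.ov ZMod.stdAddChar ψ (fun k => conj (ψ k)) (-a) (-b)
        = ZMod.stdAddChar (-(a * b)) *
          conj (Pool.Agent.H207.WH.ov ZMod.stdAddChar ψ (fun k => conj (ψ k)) a b) := by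
      rw [Pool.Agent.H207.WH.ov_neg, Pool.Agent.H207.WH.ov, map_sum]
      congr 1
      apply Finset.sum_congr rfl
      intro k _
      rw [map_mul, map_mul, Complex.conj_conj, AddChar.map_neg_eq_conj]
    have h3 : Pool.Agent.H207.WH.ov ZMod.stdAddChar ψ (fun k => conj (ψ k)) a b *
        conj (Pool.Agent.H207.WH.ov ZMod.stdAddChar ψ (fun k => conj (ψ k)) a b) = ((p : ℂ) + 1)⁻¹ := by
      rw [Complex.mul_conj, Complex.normSq_eq_norm_sq, h1]
      push_cast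
      rw [one_div]
    rw [h2, ← h3]
    ring

theorem phase_eq (ψ : EuclideanSpace ℂ (ZMod p)) (g : ZMod p × ZMod p) :
    phase ψ g = ((√((p : ℝ) + 1) : ℝ) : ℂ) *
      Pool.Agent.H207.WH.ov ZMod.stdAddChar ψ (fun k => conj (ψ k)) g.1 g.2 := by
  rw [phase, inner_disp]

theorem sqs (p : ℕ) : (((√((p : ℝ) + 1) : ℝ) : ℂ)) ^ 2 = (p : ℂ) + 1 := by
  rw [← Complex.ofReal_pow, Real.sq_sqrt (by positivity)]
  push_cast
  rfl

theorem disp_old (g : ZMod p × ZMod p) (x : EuclideanSpace ℂ (ZMod p)) :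
    disp g x = (ZMod.stdAddChar (-(g.1 * g.2)) : ℂ) • Pool.Agent.H207.WH.disp (-g.1, g.2) x := by
  ext k
  simp only [disp, Pool.Agent.H207.WH.disp, PiLp.smul_apply, smul_eq_mul]
  rw [← mul_assoc, ← AddChar.map_add_eq_mul, ← sub_eq_add_neg]
  congr 2
  ring

theorem old_disp (g : ZMod p × ZMod p) (x : EuclideanSpace ℂ (ZMod p)) :
    Pool.Agent.H207.WH.disp g x = (ZMod.stdAddChar (-(g.1 * g.2)) : ℂ) • disp (-g.1, g.2) x := by
  rw [disp_old, smul_smul, ← AddChar.map_add_eq_mul]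
  have e : -(g.1 * g.2) + -(-g.1 * g.2) = 0 := by ring
  simp only [e, AddChar.map_zero_eq_one, one_smul, neg_neg]

theorem norm_phase (ψ : EuclideanSpace ℂ (ZMod p)) (hψ : IsFiducial ψ) (g : ZMod p × ZMod p)
    (hg : g ≠ 0) : ‖phase ψ g‖ = 1 := by
  have h1 := hψ.2 g hg
  have h2 : ‖phase ψ g‖ ^ 2 = 1 := by
    rw [phase, norm_mul, mul_pow, h1, Complex.norm_real, Real.norm_eq_abs, sq_abs,
      Real.sq_sqrt (by positivity)]
    field_simp
  exact (pow_eq_one_iff_of_nonneg (norm_nonneg _) two_ne_zero).mp h2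

/-- a special number of absolute value one is a root of unity -/
theorem special_root {x : ℂ} (hx : ‖x‖ = 1) (h : Special x) : ∃ n : ℕ, 0 < n ∧ x ^ n = 1 := by
  rcases h with h | ⟨K, i1, i2, i3, φ, y, rfl⟩
  · exact h
  · exact cm_root φ y hx

theorem norm_prod (ψ : EuclideanSpace ℂ (ZMod p)) (hψ : IsFiducial ψ)
    (m : Multiset (ZMod p × ZMod p)) (hm : 0 ∉ m) : ‖(m.map (phase ψ)).prod‖ = 1 := by
  induction m using Multiset.induction_on with
  | empty => simp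
  | cons a m ih =>
    rw [Multiset.map_cons, Multiset.prod_cons, norm_mul,
      ih (fun h => hm (Multiset.mem_cons_of_mem h)), mul_one]
    exact norm_phase ψ hψ a (fun h => hm (h ▸ Multiset.mem_cons_self a m))

theorem phase_neg (ψ : EuclideanSpace ℂ (ZMod p)) (hψ : IsFiducial ψ) (g : ZMod p × ZMod p)
    (hg : g ≠ 0) : phase ψ g * phase ψ (-g) = ZMod.stdAddChar (-(g.1 * g.2)) := by
  have hp1 : (p : ℂ) + 1 ≠ 0 := by exact_mod_cast Nat.succ_ne_zero p
  have h1 := (sic ψ hψ).flat g.1 g.2 (fun h => hg (Prod.ext h.1 h.2))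
  rw [phase_eq, phase_eq]
  simp only [Prod.fst_neg, Prod.snd_neg]
  calc _ = (((√((p : ℝ) + 1) : ℝ) : ℂ)) ^ 2 *
        (Pool.Agent.H207.WH.ov ZMod.stdAddChar ψ (fun k => conj (ψ k)) g.1 g.2 *
          Pool.Agent.H207.WH.ov ZMod.stdAddChar ψ (fun k => conj (ψ k)) (-g.1) (-g.2)) := by ring
    _ = _ := by rw [h1, sqs]; field_simp

theorem special_neg (ψ : EuclideanSpace ℂ (ZMod p)) (hψ : IsFiducial ψ) (g : ZMod p × ZMod p)
    (hg : g ≠ 0) (h : Special (phase ψ (-g))) : Special (phase ψ g) := by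
  have hp : p.Prime := Fact.out
  have hg' : -g ≠ 0 := neg_ne_zero.mpr hg
  obtain ⟨n, hn, hn1⟩ := special_root (norm_phase ψ hψ _ hg') h
  left
  refine ⟨n * p, Nat.mul_pos hn hp.pos, ?_⟩
  have h1 := congrArg (fun x : ℂ => x ^ (n * p)) (phase_neg ψ hψ g hg)
  rw [mul_pow, pow_mul (phase ψ (-g)), hn1, one_pow, mul_one, mul_comm n p, pow_mul _ p n,
    pow_mul _ p n, Pool.Agent.H207.WH.chi_pow, one_pow] at h1
  rw [mul_comm n p, pow_mul]
  exact h1

end Pool.Agent.H207.RU
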