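import Pool.Agent.H207.RU.Field
import Pool.Agent.H207.WH.Fid

/-!
# Products of an odd number of overlaps, and the field generated by all overlaps
-/

set_option autoImplicit false

namespace Pool.Agent.H207.RU

open Finset Pool.Agent.H207.WH

section prod

variable {L : Type*} [Field L] {p : ℕ} [Fact p.Prime] {α : Type*}

omit [Fact p.Prime] in
theorem prod_one (B : ValuationSubring L) (z : α → L) (m : Multiset α)
    (hz : ∀ g ∈ m, z g ∈ B ∧ rs B (z g) = 1) :
    (m.map z).prod ∈ B ∧ rs B (m.map z).prod = 1 := by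
  induction m using Multiset.induction_on with
  | empty => simp [rs_one]
  | cons a m ih =>
    obtain ⟨h1, h2⟩ := ih (fun g hg => hz g (Multiset.mem_cons_of_mem hg))
    obtain ⟨h3, h4⟩ := hz a (Multiset.mem_cons_self a m)
    rw [Multiset.map_cons, Multiset.prod_cons]
    exact ⟨B.mul_mem _ _ h3 h1, by rw [rs_mul B h3 h1, h2, h4, one_mul]⟩

omit [Fact p.Prime] in
theorem prod_s (s : L) (z : α → L) (m : Multiset α) :
    (m.map (fun g => s * z g)).prod = s ^ Multiset.card m * (m.map z).prod := by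
  induction m using Multiset.induction_on with
  | empty => simp
  | cons a m ih =>
    rw [Multiset.map_cons, Multiset.prod_cons, ih, Multiset.map_cons, Multiset.prod_cons,
      Multiset.card_cons, pow_succ]
    ring

omit [Fact p.Prime] in
/-- a product of an odd number of normalised overlaps is `s z` with `z` congruent to one modulo all
places over `p` -/
theorem odd_prod {s : L} (hs : s ^ 2 = (p : L) + 1) (z : α → L) (m : Multiset α)
    (hz : ∀ B : ValuationSubring L, (p : L) ∈ B.nonunits → ∀ g ∈ m, z g ∈ B ∧ rs B (z g) = 1)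
    (hm : Odd (Multiset.card m)) : ∃ y : L, (m.map (fun g => s * z g)).prod = s * y ∧
      ∀ B : ValuationSubring L, (p : L) ∈ B.nonunits → y ∈ B ∧ rs B y = 1 := by
  obtain ⟨k, hk⟩ := hm
  refine ⟨((p : L) + 1) ^ k * (m.map z).prod, ?_, fun B hB => ?_⟩
  · rw [prod_s, hk, ← hs]
    ring
  · obtain ⟨h1, h2⟩ := prod_one B z m (hz B hB)
    have h3 : (p : L) + 1 ∈ B := mem_of_val B (val_p1 B hB)
    have h4 : rs B ((p : L) + 1) = 1 := by
      rw [rs_add B (nat_mem B p) B.one_mem, rs_one, (rs_eq_zero B (nat_mem B p)).mpr hB, zero_add]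
    refine ⟨B.mul_mem _ _ (pow_mem h3 k) h1, ?_⟩
    rw [rs_mul B (pow_mem h3 k) h1, rs_pow B h3, h4, one_pow, h2, one_mul]

omit [Fact p.Prime] in
/-- a product of an even number of normalised overlaps is congruent to one modulo all places over
`p` -/
theorem even_prod {s : L} (hs : s ^ 2 = (p : L) + 1) (z : α → L) (m : Multiset α)
    (hz : ∀ B : ValuationSubring L, (p : L) ∈ B.nonunits → ∀ g ∈ m, z g ∈ B ∧ rs B (z g) = 1)
    (hm : Even (Multiset.card m)) (B : ValuationSubring L) (hB : (p : L) ∈ B.nonunits) :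
    rs B (m.map (fun g => s * z g)).prod = 1 := by
  obtain ⟨k, hk⟩ := hm
  obtain ⟨h1, h2⟩ := prod_one B z m (hz B hB)
  have h3 : (p : L) + 1 ∈ B := mem_of_val B (val_p1 B hB)
  have h4 : rs B ((p : L) + 1) = 1 := by
    rw [rs_add B (nat_mem B p) B.one_mem, rs_one, (rs_eq_zero B (nat_mem B p)).mpr hB, zero_add]
  have h5 : (m.map (fun g => s * z g)).prod = ((p : L) + 1) ^ k * (m.map z).prod := by
    rw [prod_s, hk, ← hs]
    ring
  rw [h5, rs_mul B (pow_mem h3 k) h1, rs_pow B h3, h4, one_pow, h2, one_mul]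

end prod

section field

variable {L : Type*} [Field L] [CharZero L] {p : ℕ} [Fact p.Prime]

/-- `s = √(p + 1)` lies in every field which contains all normalised overlaps -/
theorem sqrt_all (hp2 : p ≠ 2) {χ : AddChar (ZMod p) L} (hχ : χ.IsPrimitive) {w u : ZMod p → L}
    (hS : Sic χ w u) {s : L} (hs : s ^ 2 = (p : L) + 1) (F : Subfield L)
    (hF : ∀ a b, ¬ (a = 0 ∧ b = 0) → s * ov χ w u a b ∈ F) : s ∈ F := by
  classical
  have hp : p.Prime := Fact.out
  have hp1 : (p : L) + 1 ≠ 0 := by exact_mod_cast Nat.succ_ne_zero p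
  have hs0 : s ≠ 0 := by
    rintro rfl
    apply hp1
    rw [← hs]; ring
  have hprod : ∀ a b, ¬ (a = 0 ∧ b = 0) →
      (s * ov χ w u a b) * (s * ov χ w u (-a) (-b)) = χ (-(a * b)) := by
    intro a b hab
    calc _ = s ^ 2 * (ov χ w u a b * ov χ w u (-a) (-b)) := by ring
      _ = _ := by rw [hS.flat a b hab, hs]; field_simp
  have hχF : ∀ t, χ t ∈ F := by
    intro t
    have h1 := hprod 1 (-t) (fun h => one_ne_zero h.1)
    have e : -((1 : ZMod p) * -t) = t := by ring
    rw [e] at h1
    rw [← h1]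
    refine F.mul_mem (hF _ _ (fun h => one_ne_zero h.1)) (hF _ _ (fun h => ?_))
    exact one_ne_zero (neg_eq_zero.mp h.1)
  have h01 : ¬ ((0 : ZMod p) = 0 ∧ (1 : ZMod p) = 0) := fun h => one_ne_zero h.2
  set A := ov χ w u 0 1 with hA
  have hA0 : s * A ≠ 0 := by
    intro h0
    have h1 := hprod 0 1 h01
    rw [h0, zero_mul] at h1
    have h2 := chi_pow χ (-((0 : ZMod p) * 1))
    rw [← h1, zero_pow hp.ne_zero] at h2
    exact zero_ne_one h2
  have h1 := FF_SD hχ w u 0 1 0 0
  simp only [zero_mul, sub_self, AddChar.map_zero_eq_one, one_mul] at h1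
  rw [FF] at h1
  simp only [zero_mul, AddChar.map_zero_eq_one, one_mul, sub_zero, hS.zero] at h1
  rw [← hA, ← Fintype.sum_prod_type (f := fun g : ZMod p × ZMod p =>
    FF χ (ov χ w u) 0 1 g.1 g.2)] at h1
  have hterm : ∀ g : ZMod p × ZMod p, s ^ 2 * FF χ (ov χ w u) 0 1 g.1 g.2
      - (if g = (0, 0) then s ^ 2 * A else 0) - (if g = (0, 1) then s ^ 2 * A else 0) ∈ F := by
    rintro ⟨a, b⟩
    by_cases h0 : (a, b) = ((0, 0) : ZMod p × ZMod p)
    · have ha : a = 0 := congrArg Prod.fst h0
      have hb : b = 0 := congrArg Prod.snd h0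
      have hne : ((0 : ZMod p), (0 : ZMod p)) ≠ (0, 1) := fun h =>
        one_ne_zero (congrArg Prod.snd h).symm
      rw [ha, hb, if_pos rfl, if_neg hne]
      simp only [FF, zero_mul, AddChar.map_zero_eq_one, one_mul, sub_zero, hS.zero, ← hA,
        sub_self]
      exact F.zero_mem
    · by_cases h2 : (a, b) = ((0, 1) : ZMod p × ZMod p)
      · have ha : a = 0 := congrArg Prod.fst h2
        have hb : b = 1 := congrArg Prod.snd h2
        have hne : ((0 : ZMod p), (1 : ZMod p)) ≠ (0, 0) := fun h =>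
          one_ne_zero (congrArg Prod.snd h)
        rw [ha, hb, if_pos rfl, if_neg hne]
        simp only [FF, zero_mul, AddChar.map_zero_eq_one, one_mul, sub_zero, sub_self, hS.zero,
          ← hA, mul_one]
        exact F.zero_mem
      · rw [if_neg h0, if_neg h2, sub_zero, sub_zero]
        have e : s ^ 2 * FF χ (ov χ w u) 0 1 a b
            = χ (a * (b - 1)) * (s * ov χ w u a b) * (s * ov χ w u (0 - a) (1 - b)) := by
          rw [FF]; ring
        show s ^ 2 * FF χ (ov χ w u) 0 1 a b ∈ F
        rw [e]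
        refine F.mul_mem (F.mul_mem (hχF _) (hF _ _ ?_)) (hF _ _ ?_)
        · rintro ⟨ha, hb⟩
          exact h0 (Prod.ext ha hb)
        · rintro ⟨ha, hb⟩
          apply h2
          refine Prod.ext ?_ ?_
          · show a = 0
            linear_combination -ha
          · show b = 1
            linear_combination -hb
  have hsum := Subfield.sum_mem F (t := univ) (fun g _ => hterm g)
  rw [Finset.sum_sub_distrib, Finset.sum_sub_distrib, ← Finset.mul_sum, ← h1,
    Finset.sum_ite_eq' univ, Finset.sum_ite_eq' univ, if_pos (mem_univ _), if_pos (mem_univ _)]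
    at hsum
  have hp2' : ((p : L) - 2) ≠ 0 := by
    intro h
    apply hp2
    have : (p : L) = ((2 : ℕ) : L) := by push_cast; linear_combination h
    exact_mod_cast this
  have e : s = (s ^ 2 * ((p : L) * A) - s ^ 2 * A - s ^ 2 * A) * (((p : L) - 2) * (s * A))⁻¹ := by
    rw [eq_mul_inv_iff_mul_eq₀ (mul_ne_zero hp2' hA0)]
    ring
  rw [e]
  refine F.mul_mem hsum (F.inv_mem (F.mul_mem (F.sub_mem (natCast_mem F p) ?_) (hF _ _ h01)))
  exact ofNat_mem F 2

end field

end Pool.Agent.H207.RU
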